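import Pool.Agent.T3h73.SN.Stm

/-! Kummer data of an element `y` of a field `E` which contains the `ℓ`-th roots of unity (helper for
SPA and SPN of project SN). -/

set_option autoImplicit false
set_option linter.all false

open Polynomial

namespace Pool.Agent.T3h64.SP

open Pool.Agent.Y713 (Jac.Gal)

variable {ℓ : ℕ} {E : Type} [Field E] [CharZero E] {ζ : E}

/-- Kummer data: an `ℓ`-th root `θ` of `y` and its character `r` -/
def KDat (ℓ : ℕ) {E : Type} [Field E] (ζ : E) (y : Eˣ) (θ : SeparableClosure E) (r : Jac.Gal E → ℕ) : Prop :=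
  θ ^ ℓ = algebraMap E (SeparableClosure E) (y : E) ∧
    (∀ σ : Jac.Gal E, σ θ = algebraMap E (SeparableClosure E) ζ ^ r σ * θ) ∧ ∀ σ, r σ < ℓ

theorem prim (hζ : IsPrimitiveRoot ζ ℓ) : IsPrimitiveRoot (algebraMap E (SeparableClosure E) ζ) ℓ :=
  hζ.map_of_injective (algebraMap E (SeparableClosure E)).injective

theorem KDat.ne {y : Eˣ} {θ : (SeparableClosure E)} {r : Jac.Gal E → ℕ} (hℓ : ℓ ≠ 0) (h : KDat ℓ ζ y θ r) : θ ≠ 0 := by
  intro h0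
  have := h.1
  rw [h0, zero_pow hℓ] at this
  exact y.ne_zero ((algebraMap E (SeparableClosure E)).injective (this.symm.trans (map_zero _).symm))

theorem exists_kdat (hℓ : ℓ ≠ 0) (hζ : IsPrimitiveRoot ζ ℓ) (y : Eˣ) :
    ∃ (θ : (SeparableClosure E)) (r : Jac.Gal E → ℕ), KDat ℓ ζ y θ r := by
  haveI : NeZero ((ℓ : ℕ) : (SeparableClosure E)) := ⟨by
    have : CharZero (SeparableClosure E) := charZero_of_injective_algebraMap (algebraMap E (SeparableClosure E)).injective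
    exact Nat.cast_ne_zero.2 hℓ⟩
  obtain ⟨θ, hθ⟩ := IsSepClosed.exists_pow_nat_eq (algebraMap E (SeparableClosure E) (y : E)) ℓ
  have h0 : θ ≠ 0 := by
    rintro rfl
    rw [zero_pow hℓ] at hθ
    exact y.ne_zero ((algebraMap E (SeparableClosure E)).injective (hθ.symm.trans (map_zero _).symm))
  have key : ∀ σ : Jac.Gal E, ∃ i < ℓ, (algebraMap E (SeparableClosure E) ζ) ^ i = σ θ / θ := by
    intro σ
    haveI : NeZero ℓ := ⟨hℓ⟩
    refine (prim hζ).eq_pow_of_pow_eq_one ?_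
    rw [div_pow, ← map_pow, hθ, σ.commutes, div_self]
    rw [← hθ]
    exact pow_ne_zero _ h0
  choose r hr1 hr2 using key
  exact ⟨θ, r, hθ, fun σ => by rw [hr2, div_mul_cancel₀ _ h0], hr1⟩

theorem KDat.unique {y : Eˣ} {θ θ' : (SeparableClosure E)} {r r' : Jac.Gal E → ℕ} (hℓ : ℓ ≠ 0) (hζ : IsPrimitiveRoot ζ ℓ)
    (h : KDat ℓ ζ y θ r) (h' : KDat ℓ ζ y θ' r') : r = r' := by
  haveI : NeZero ℓ := ⟨hℓ⟩
  have hn := h.ne hℓ
  have hn' := h'.ne hℓ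
  have h1 : (θ' / θ) ^ ℓ = 1 := by
    rw [div_pow, h.1, h'.1, div_self]
    intro h0
    exact y.ne_zero ((algebraMap E (SeparableClosure E)).injective (h0.trans (map_zero _).symm))
  obtain ⟨i, -, hi⟩ := (prim hζ).eq_pow_of_pow_eq_one h1
  have h2 : θ' = (algebraMap E (SeparableClosure E) ζ) ^ i * θ := by rw [hi, div_mul_cancel₀ _ hn]
  funext σ
  refine (prim hζ).pow_inj (h.2.2 σ) (h'.2.2 σ) ?_
  have h3 := h'.2.1 σ
  rw [h2, map_mul, map_pow, σ.commutes, h.2.1 σ] at h3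
  have hz : (algebraMap E (SeparableClosure E) ζ) ^ i ≠ 0 := pow_ne_zero _ ((prim hζ).ne_zero hℓ)
  have h4 : (algebraMap E (SeparableClosure E) ζ) ^ i * θ * (algebraMap E (SeparableClosure E) ζ) ^ r σ =
      (algebraMap E (SeparableClosure E) ζ) ^ i * θ * (algebraMap E (SeparableClosure E) ζ) ^ r' σ := by
    rw [mul_comm _ (algebraMap E (SeparableClosure E) ζ ^ r' σ), ← h3]; ring
  exact mul_left_cancel₀ (mul_ne_zero hz hn) h4

theorem modEq' {F : Type} [Field F] {z : F} (hℓ : ℓ ≠ 0) (hz : IsPrimitiveRoot z ℓ) {i j : ℕ}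
    (h : z ^ i = z ^ j) : i % ℓ = j % ℓ := by
  refine hz.pow_inj (Nat.mod_lt _ (Nat.pos_of_ne_zero hℓ)) (Nat.mod_lt _ (Nat.pos_of_ne_zero hℓ)) ?_
  rw [← pow_eq_pow_mod _ hz.pow_eq_one, ← pow_eq_pow_mod _ hz.pow_eq_one, h]

theorem modEq (hℓ : ℓ ≠ 0) (hζ : IsPrimitiveRoot ζ ℓ) {i j : ℕ}
    (h : (algebraMap E (SeparableClosure E) ζ) ^ i = (algebraMap E (SeparableClosure E) ζ) ^ j) : i % ℓ = j % ℓ :=
  modEq' hℓ (prim hζ) h

theorem KDat.mul {y : Eˣ} {θ : (SeparableClosure E)} {r : Jac.Gal E → ℕ} (hℓ : ℓ ≠ 0) (hζ : IsPrimitiveRoot ζ ℓ)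
    (h : KDat ℓ ζ y θ r) (σ τ : Jac.Gal E) : r (σ * τ) = (r σ + r τ) % ℓ := by
  have h1 := h.2.1 (σ * τ)
  rw [AlgEquiv.mul_apply, h.2.1 τ, map_mul, map_pow, σ.commutes, h.2.1 σ, ← mul_assoc, ← pow_add] at h1
  have h2 := modEq hℓ hζ (mul_right_cancel₀ (h.ne hℓ) h1)
  rw [Nat.mod_eq_of_lt (h.2.2 (σ * τ))] at h2
  rw [← h2, add_comm]

/-- the exponent of the 2-cocycle -/
theorem KDat.nn {y : Eˣ} {θ : (SeparableClosure E)} {r : Jac.Gal E → ℕ} (hℓ : ℓ ≠ 0) (hζ : IsPrimitiveRoot ζ ℓ)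
    (h : KDat ℓ ζ y θ r) (σ τ : Jac.Gal E) :
    r σ + r τ = r (σ * τ) + ℓ * ((r σ + r τ - r (σ * τ)) / ℓ) := by
  rw [h.mul hℓ hζ σ τ]
  set a := r σ + r τ
  have h1 := Nat.mod_add_div a ℓ
  have h2 : a - a % ℓ = ℓ * (a / ℓ) := by omega
  rw [h2, Nat.mul_div_cancel_left _ (Nat.pos_of_ne_zero hℓ)]
  exact h1.symm

theorem KDat.one {y : Eˣ} {θ : (SeparableClosure E)} {r : Jac.Gal E → ℕ} (hℓ : ℓ ≠ 0) (hζ : IsPrimitiveRoot ζ ℓ)
    (h : KDat ℓ ζ y θ r) : r 1 = 0 := by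
  have h1 := h.2.1 1
  rw [AlgEquiv.one_apply] at h1
  have h2 : (algebraMap E (SeparableClosure E) ζ) ^ r 1 = (algebraMap E (SeparableClosure E) ζ) ^ 0 := by
    rw [pow_zero]
    have h3 : (algebraMap E (SeparableClosure E) ζ) ^ r 1 * θ = 1 * θ := by rw [one_mul]; exact h1.symm
    exact mul_right_cancel₀ (h.ne hℓ) h3
  exact (prim hζ).pow_inj (h.2.2 1) (Nat.pos_of_ne_zero hℓ) h2

instance : IsGalois E (SeparableClosure E) := ⟨⟩

theorem KDat.lc {y : Eˣ} {θ : (SeparableClosure E)} {r : Jac.Gal E → ℕ} (hℓ : ℓ ≠ 0) (hζ : IsPrimitiveRoot ζ ℓ)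
    (h : KDat ℓ ζ y θ r) : IsLocallyConstant r := by
  let f : Jac.Gal E → Fin ℓ := fun σ => ⟨r σ, h.2.2 σ⟩
  let g : Fin ℓ → (SeparableClosure E) := fun k => (algebraMap E (SeparableClosure E) ζ) ^ (k : ℕ) * θ
  have hg : Function.Injective g := by
    intro a b hab
    exact Fin.ext ((prim hζ).pow_inj a.2 b.2 (mul_right_cancel₀ (h.ne hℓ) hab))
  have h1 : IsLocallyConstant (g ∘ f) := by
    have h2 : g ∘ f = fun σ : Jac.Gal E => σ θ := by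
      funext σ
      exact (h.2.1 σ).symm
    rw [h2]
    exact Pool.Agent.Y713.SE.locConst_apply θ
  exact (IsLocallyConstant.desc f g h1 hg).comp (fun k : Fin ℓ => (k : ℕ))

/-- the product -/
theorem KDat.prod {y y' : Eˣ} {θ θ' : (SeparableClosure E)} {r r' : Jac.Gal E → ℕ} (hℓ : ℓ ≠ 0) (hζ : IsPrimitiveRoot ζ ℓ)
    (h : KDat ℓ ζ y θ r) (h' : KDat ℓ ζ y' θ' r') :
    KDat ℓ ζ (y * y') (θ * θ') (fun σ => (r σ + r' σ) % ℓ) := by
  refine ⟨by rw [mul_pow, h.1, h'.1, ← map_mul, Units.val_mul], fun σ => ?_,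
    fun σ => Nat.mod_lt _ (Nat.pos_of_ne_zero hℓ)⟩
  rw [map_mul, h.2.1, h'.2.1]
  have h1 : (algebraMap E (SeparableClosure E) ζ) ^ ((r σ + r' σ) % ℓ) = (algebraMap E (SeparableClosure E) ζ) ^ (r σ + r' σ) := by
    rw [← pow_eq_pow_mod _ (prim hζ).pow_eq_one]
  rw [h1, pow_add]
  ring

end Pool.Agent.T3h64.SP
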